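import Mathlib

set_option autoImplicit false

namespace Pool.Agent.H.MP_47485c_an

open Set Filter Topology MeasureTheory ProbabilityTheory Function
open scoped ENNReal Classical

variable {Ω : Type*} [MeasurableSpace Ω] {P : Measure Ω} [IsProbabilityMeasure P] {X : ℕ → Ω → ℝ}

theorem curry {ι : Type} {κ : ι → Type} (m : ∀ n, Measurable (X n)) (h : iIndepFun X P)
    {g : (Σ i, κ i) → ℕ} (hg : Injective g) : iIndepFun (fun i a (j : κ i) => X (g ⟨i, j⟩) a) P := by
  rw [iIndepFun_iff_map_fun_eq_infinitePi_map (by fun_prop)]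
  have e := (iIndepFun_iff_map_fun_eq_infinitePi_map (by fun_prop)).1 (h.precomp hg)
  have := fun n => Measure.isProbabilityMeasure_map (μ := P) (m n).aemeasurable
  have := Measure.infinitePi_map_piCurry (fun i (j : κ i) => P.map (X (g ⟨i, j⟩)))
  rw [← e, Measure.map_map (by fun_prop) (by fun_prop)] at this
  refine this.trans (congrArg _ (funext fun i => ?_))
  exact ((iIndepFun_iff_map_fun_eq_infinitePi_map (by fun_prop)).1
    (h.precomp (hg.comp (sigma_mk_injective (i := i))))).symm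

theorem runs (m : ∀ n, Measurable (X n)) (h : iIndepFun X P) (d : ∀ i, IdentDistrib (X i) (X 0) P P) (r : ℕ)
    (B : ℕ → ℕ → Set (ℕ → ℝ)) (b : ∀ i k, MeasurableSet (B i k))
    (hd : ∀ i k x y, (∀ n < 2 ^ (r * i + k), x n = y n) → x ∈ B i k → y ∈ B i k)
    (hc : ∀ k, ∃ c ≠ 0, ∀ᶠ i in atTop, c ≤ P {a | (X · a) ∈ B i k}) :
    ∀ᵐ a ∂P, ∃ᶠ i in atTop, ∀ k < r, (fun n => X (2 ^ (r * i + k) + n) a) ∈ B i k := by
  choose c c0 hc using hc
  let A : ℕ × Fin r → Set Ω := fun z => {a | (fun n => X (2 ^ (r * z.1 + z.2) + n) a) ∈ B z.1 z.2}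
  have mA : ∀ z, MeasurableSet (A z) := fun z => (measurable_pi_lambda _ fun n => m _) (b _ _)
  have pA : ∀ S : Finset (ℕ × Fin r), P (⋂ z ∈ S, A z) = ∏ z ∈ S, P (A z) := fun S => by
    refine ((curry (κ := fun z : ℕ × Fin r => Fin (2 ^ (r * z.1 + z.2))) m h
      (g := fun w => 2 ^ (r * w.1.1 + w.1.2) + w.2) ?_).comp
      (fun z x n => if h : n < 2 ^ (r * z.1 + z.2) then x ⟨n, h⟩ else 0) fun z =>
        measurable_pi_lambda _ fun n => by split_ifs <;> fun_prop).meas_biInter fun z _ =>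
          ⟨_, b z.1 z.2, ?_⟩
    · rintro ⟨⟨i, k⟩, j⟩ ⟨⟨i', k'⟩, j'⟩ e
      have l : ∀ (s : ℕ) (j : Fin (2 ^ s)), Nat.log 2 (2 ^ s + j) = s := fun s j =>
        Nat.log_eq_of_pow_le_of_lt_pow (by omega) (by omega)
      have e1 := congrArg (Nat.log 2) e
      simp only [l] at e1
      have e2 := congrArg (· / r) e1
      simp only [Nat.mul_add_div k.pos, Nat.div_eq_of_lt (Fin.is_lt _), add_zero] at e2
      subst e2
      obtain rfl : k = k' := Fin.ext (by omega)
      obtain rfl : j = j' := Fin.ext (by simpa using e)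
      rfl
    ext a
    exact ⟨hd _ _ _ _ fun n hn => dif_pos hn, hd _ _ _ _ fun n hn => by simp [hn]⟩
  have pE : ∀ S : Finset ℕ, P (⋂ i ∈ S, ⋂ k, A (i, k)) = ∏ i ∈ S, ∏ k, P (A (i, k)) := fun S => by
    rw [← Finset.prod_product', ← pA]
    congr 1
    ext
    simpa using ⟨fun h a b c => h a c b, fun h a c b => h a b c⟩
  have p1 : ∀ i, P (⋂ k, A (i, k)) = ∏ k, P (A (i, k)) := fun i => by simpa using pE {i}
  have mE : ∀ i, MeasurableSet (⋂ k, A (i, k)) := fun i => .iInter fun k => mA _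
  have := measure_limsup_eq_one mE ((iIndepSet_iff_meas_biInter mE).2 fun S => by rw [pE]; simp only [p1])
    (by_contra fun n => ?_)
  · filter_upwards [(prob_compl_eq_zero_iff (.measurableSet_limsup mE)).2 this] with a ha
    exact (mem_limsup_iff_frequently_mem.1 ha).mono fun i hi k hk => mem_iInter.1 hi ⟨k, hk⟩
  refine (Finset.prod_ne_zero_iff (s := Finset.univ)).2 (fun (k : Fin r) _ => c0 k) (le_zero_iff.1
    (ge_of_tendsto (ENNReal.tendsto_atTop_zero_of_tsum_ne_top n) ?_))
  filter_upwards [eventually_all.2 fun k : Fin r => hc k] with i hi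
  rw [p1]
  exact Finset.prod_le_prod' fun k _ => (hi k).trans_eq ((IdentDistrib.pi (fun n => (d _).trans (d _).symm) h
    (h.precomp (add_right_injective _))).measure_mem_eq (b _ _))

theorem move (h : iIndepFun X P) (d : ∀ i, IdentDistrib (X i) (X 0) P P) (l : MemLp (X 0) 2 P)
    (e : P[X 0] = 0) (v : Var[X 0; P] ≠ 0) {y : ℝ} (y0 : 0 < y) :
    ∃ c ≠ 0, ∀ᶠ n : ℕ in atTop, c ≤ P {a | ∑ i ∈ Finset.range n, X i a ∈ Ioo (y * √n) (2 * (y * √n))} := by
  have t := tendstoInDistribution_inv_sqrt_mul_sum_sub (P' := gaussianReal 0 Var[X 0; P].toNNReal)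
    HasLaw.id l h d
  have k := ProbabilityMeasure.le_liminf_measure_open_of_tendsto t.tendsto (isOpen_Ioo (a := y) (b := 2 * y))
  have g : gaussianReal 0 Var[X 0; P].toNNReal (Ioo y (2 * y)) ≠ 0 := fun z => by
    have := gaussianReal_absolutelyContinuous' 0 (by simpa using (variance_nonneg _ _).lt_of_ne' v) z
    simp only [Real.volume_Ioo, ENNReal.ofReal_eq_zero] at this
    linarith
  obtain ⟨c, c0, c1⟩ := exists_between (pos_iff_ne_zero.2 g)
  refine ⟨c, c0.ne', ?_⟩
  filter_upwards [eventually_lt_of_lt_liminf (c1.trans_le (by simpa using k)), eventually_gt_atTop 0] with n hn n0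
  rw [Measure.map_apply_of_aemeasurable (by simpa using t.forall_aemeasurable n) measurableSet_Ioo] at hn
  refine hn.le.trans (measure_mono fun a ha => ?_)
  have : 0 < √(n : ℝ) := by positivity
  simp only [e, mul_zero, sub_zero, mem_preimage, mem_Ioo, lt_inv_mul_iff₀ this, inv_mul_lt_iff₀ this] at ha
  exact ⟨by linarith [ha.1], by linarith [ha.2]⟩

theorem stay (m : ∀ n, Measurable (X n)) (h : iIndepFun X P) (d : ∀ i, IdentDistrib (X i) (X 0) P P)
    (l : MemLp (X 0) 2 P) (e : P[X 0] = 0) (v : Var[X 0; P] ≤ 1) {n : ℕ} (n0 : n ≠ 0) :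
    ENNReal.ofReal 2⁻¹ ≤ P {a | ∑ k ∈ Finset.range n, (∑ i ∈ Finset.range (k + 1), X i a) ^ 2 +
      n * (∑ i ∈ Finset.range n, X i a) ^ 2 < 4 * n ^ 2} := by
  have L : ∀ k, MemLp (fun a => ∑ i ∈ Finset.range k, X i a) 2 P := fun k =>
    memLp_finsetSum _ fun i _ => (d i).memLp_iff.2 l
  have s : ∀ k ≤ n, ∫ a, (∑ i ∈ Finset.range k, X i a) ^ 2 ∂P ≤ n := fun k hk => by
    rw [← variance_of_integral_eq_zero (L k).aemeasurable (by
      rw [integral_finsetSum _ fun i _ => ((d i).memLp_iff.2 l).integrable one_le_two]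
      simp [(d _).integral_eq, e]), ← Finset.sum_fn, IndepFun.variance_sum (fun i _ => (d i).memLp_iff.2 l)
        fun i _ j _ ij => h.indepFun ij]
    simp only [(d _).variance_eq, Finset.sum_const, Finset.card_range, nsmul_eq_mul]
    have : (k : ℝ) ≤ n := by exact_mod_cast hk
    nlinarith [k.cast_nonneg (α := ℝ)]
  have i1 := integrable_finsetSum (Finset.range n) fun k _ => (L (k + 1)).integrable_sq
  have i2 := (L n).integrable_sq.const_mul n
  have k := mul_meas_ge_le_integral_of_nonneg (ae_of_all _ fun a => by simp only [Pi.add_apply, Pi.zero_apply]; positivity) (i1.add i2) (4 * n ^ 2)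
  have n1 : (0 : ℝ) < n ^ 2 := by positivity
  have := Finset.sum_le_card_nsmul _ _ _ fun k hk => s (k + 1) (Finset.mem_range.1 hk)
  simp only [Pi.add_apply] at k
  rw [integral_add i1 i2, integral_finsetSum _ fun k _ => (L (k + 1)).integrable_sq, integral_const_mul] at k
  rw [Finset.card_range, nsmul_eq_mul] at this
  rw [ENNReal.ofReal_le_iff_le_toReal (by simp), ← measureReal_def, ← compl_compl (Set.ofPred _),
    probReal_compl_eq_one_sub (measurableSet_lt (by fun_prop) measurable_const).compl]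
  simp only [compl_ofPred, not_lt]
  nlinarith [mul_le_mul_of_nonneg_left (s n le_rfl) n.cast_nonneg]

end Pool.Agent.H.MP_47485c_an
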