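import Mathlib
import Pool.Agent.H.MP_83af8b_an.B
import Pool.Agent.H.MP_47485c_an.A

set_option autoImplicit false

namespace Pool.Agent.H.MP_47485c_an

open Set Filter Topology MeasureTheory ProbabilityTheory Function Pool.Agent.H.MP_83af8b_an
open scoped ENNReal Classical

theorem det {ω : ℕ → ℕ} (hω : ∀ i, ω i = 2 ∨ ω i = 3) {p : ℝ} (p0 : 0 < p) (p1 : p < 1) {x : ℕ → ℝ}
    (hx : ∀ i, x i = if ω i = 2 then 1 - p else -p) {j q : ℕ} (hq : 416 * 2 ^ j = q) {T : ℕ → ℕ}
    (hT : ∀ k, T (k + 1) = T k + T k) (jT : j < T 0) {R : ℝ} (R1 : 1 ≤ R) (hR : ∀ k < 2 * q, T k ≤ R ^ 2)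
    (mv : ∀ k < q, ∑ l ∈ Finset.range (T (2 * k)), x (T (2 * k) + l) ∈ Ioo (3 * R) (2 * (3 * R)))
    (st : ∀ k < q, ∑ l ∈ Finset.range (T (2 * k + 1)), (∑ i ∈ Finset.range (l + 1), x (T (2 * k + 1) + i)) ^ 2 +
      T (2 * k + 1) * (∑ i ∈ Finset.range (T (2 * k + 1)), x (T (2 * k + 1) + i)) ^ 2 < 4 * T (2 * k + 1) ^ 2) :
    Bad (pr ω) j (T (2 * q)) := by
  have Tm : Monotone T := monotone_nat_of_le_succ fun k => by rw [hT]; omega
  have T0 : ∀ k, (0 : ℝ) < T k := fun k => by exact_mod_cast jT.pos.trans_le (Tm k.zero_le)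
  have q1 : (416 * 2 ^ j : ℝ) = q := by exact_mod_cast hq
  have j1 := one_le_pow₀ (n := j) (one_le_two (α := ℝ))
  have e : ∀ n, ∃ a b : ℕ, ∏ i ∈ Finset.range n, ω i = 1 * 2 ^ a * 3 ^ b ∧
      ∑ i ∈ Finset.range n, x i = (1 - p) * a - p * b := fun n => by
    induction n with
    | zero => exact ⟨0, 0, by simp⟩
    | succ n i =>
      obtain ⟨a, b, i1, i2⟩ := i
      rw [Finset.prod_range_succ, Finset.sum_range_succ, i1, i2, hx]
      rcases hω n with h | h <;> rw [h]
      · exact ⟨a + 1, b, by ring, by simp; ring⟩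
      · exact ⟨a, b + 1, by ring, by simp; ring⟩
  choose a b e1 e2 using e
  have L1 : 2 ≤ q * R := by nlinarith
  have L0 : 0 < q * R := by linarith
  have u1 : (1 - p) / (q * R) ≤ 1 := (div_le_one L0).2 (by linarith)
  have u0 : 0 ≤ (1 - p) / (q * R) := div_nonneg (by linarith) L0.le
  have v1 : p / (q * R) ≤ 2⁻¹ := (div_le_iff₀ L0).2 (by linarith)
  have v0 : 0 ≤ p / (q * R) := div_nonneg p0.le L0.le
  refine sweep (a := fun n => a (n + 1)) (b := fun n => b (n + 1)) one_ne_zero (u := 1 + (1 - p) / (q * R))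
    (v := 1 - p / (q * R)) (by linarith) (by linarith) (by linarith) (by linarith) fun t => ?_
  let z : ℕ → ℝ := fun k => ∑ i ∈ Finset.range (T (2 * k)), x i
  have s1 : ∀ k < q, |∑ i ∈ Finset.range (T (2 * k + 1)), x (T (2 * k + 1) + i)| ≤ 2 * R := fun k hk => by
    refine abs_le_of_sq_le_sq (le_of_mul_le_mul_left ?_ (T0 (2 * k + 1))) (by linarith)
    have := Finset.sum_nonneg fun l (_ : l ∈ Finset.range (T (2 * k + 1))) =>
      sq_nonneg (∑ i ∈ Finset.range (l + 1), x (T (2 * k + 1) + i))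
    nlinarith [st k hk, mul_le_mul_of_nonneg_left (hR (2 * k + 1) (by omega)) (T0 (2 * k + 1)).le]
  have zs : ∀ k, z (k + 1) = ∑ i ∈ Finset.range (T (2 * k + 1)), x i +
      ∑ i ∈ Finset.range (T (2 * k + 1)), x (T (2 * k + 1) + i) := fun k => by
    rw [← Finset.sum_range_add, ← hT]
    rfl
  have z1 : ∀ k < q, z k + R < z (k + 1) ∧ z (k + 1) ≤ z k + 8 * R := fun k hk => by
    have := abs_le.1 (s1 k hk)
    have m := mv k hk
    rw [zs, hT (2 * k), Finset.sum_range_add, ← hT]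
    exact ⟨by linarith [m.1], by linarith [m.2]⟩
  have z2 : ∀ k ≤ q, z 0 + k * R ≤ z k := fun k hk => by
    induction k with
    | zero => simp
    | succ k i => push_cast; linarith [i (by omega), (z1 k hk).1]
  let τ := z 0 + Int.fract (t - z 0 / (q * R)) * (q * R)
  have ex : ∃ k, τ < z k := ⟨q, lt_of_lt_of_le
    (by linarith [mul_lt_of_lt_one_left L0 (Int.fract_lt_one (t - z 0 / (q * R)))]) (z2 q le_rfl)⟩
  have kq : Nat.find ex ≤ q := Nat.find_min' ex (lt_of_lt_of_le
    (by linarith [mul_lt_of_lt_one_left L0 (Int.fract_lt_one (t - z 0 / (q * R)))]) (z2 q le_rfl))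
  obtain ⟨k, hk⟩ := Nat.exists_eq_succ_of_ne_zero (n := Nat.find ex) fun h => by
    have := Nat.find_spec ex
    rw [h] at this
    linarith [mul_nonneg (Int.fract_nonneg (t - z 0 / (q * R))) L0.le]
  have k1 := Nat.find_spec ex
  have k2 := not_lt.1 (Nat.find_min ex (m := k) (by omega))
  rw [hk] at k1 kq
  have k3 := (z1 k kq).2
  have s1 := abs_le.1 (s1 k kq)
  have st := st k kq
  have hR := hR (2 * k + 1) (by omega)
  have T1 := T0 (2 * k + 1)
  refine ⟨T (2 * k + 1) + T (2 * k + 1), ⟨jT.trans_le ((Tm (Nat.zero_le _)).trans (Nat.le_add_right _ _)),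
    hT _ ▸ Tm (by omega)⟩, ?_⟩
  rw [Nat.succ_eq_add_one, zs] at k1
  rw [zs] at k3
  generalize T (2 * k + 1) = n at *
  let G := (Finset.range n).filter fun l => (∑ i ∈ Finset.range (l + 1), x (n + i)) ^ 2 ≤ 9 * n
  have g : n ≤ 2 * G.card := by
    have c := Finset.card_filter_add_card_filter_not (s := Finset.range n)
      (fun l => (∑ i ∈ Finset.range (l + 1), x (n + i)) ^ 2 ≤ 9 * n)
    have := (Finset.card_nsmul_le_sum _ _ _ fun l hl => (not_le.1 (Finset.mem_filter.1 hl).2).le).trans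
      (Finset.sum_le_sum_of_subset_of_nonneg (Finset.filter_subset (fun l =>
        ¬(∑ i ∈ Finset.range (l + 1), x (n + i)) ^ 2 ≤ 9 * n) (Finset.range n)) fun _ _ _ => sq_nonneg _)
    rw [Finset.card_range] at c
    rw [nsmul_eq_mul] at this
    generalize ((Finset.range n).filter fun l =>
      ¬(∑ i ∈ Finset.range (l + 1), x (n + i)) ^ 2 ≤ 9 * n).card = w at c this
    have : (2 * w : ℝ) ≤ n := le_of_mul_le_mul_right
      (by nlinarith [mul_nonneg T1.le (sq_nonneg (∑ i ∈ Finset.range n, x (n + i)))]) T1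
    have : 2 * w ≤ n := by exact_mod_cast this
    simp only [G]
    omega
  refine le_trans (b := 4 * G.card) (by omega) (Nat.mul_le_mul_left _ ?_)
  rw [Nat.count_add, Nat.count_eq_card_filter_range _ n, Nat.count_eq_card_filter_range _ n]
  refine le_add_left (Finset.card_le_card fun l hl => ?_)
  obtain ⟨l1, l2⟩ := Finset.mem_filter.1 hl
  refine Finset.mem_filter.2 ⟨l1, e1 _, nrm (a (n + l + 1) + b (n + l + 1) - ⌊t - z 0 / (q * R)⌋) ?_⟩
  have l3 := abs_le.1 (abs_le_of_sq_le_sq (b := 3 * R) (l2.trans (by linarith)) (by linarith))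
  have e2 := e2 (n + (l + 1))
  rw [Finset.sum_range_add, ← add_assoc] at e2
  have : (1 + (1 - p) / (q * R)) * a (n + l + 1) + (1 - p / (q * R)) * b (n + l + 1) - t -
      (a (n + l + 1) + b (n + l + 1) - ⌊t - z 0 / (q * R)⌋ : ℤ) =
        ((1 - p) * a (n + l + 1) - p * b (n + l + 1) - τ) / (q * R) := by
    simp only [τ, Int.fract]
    generalize ⌊t - z 0 / (q * R)⌋ = w
    generalize q * R = L at L0
    push_cast
    field_simp
    ring
  rw [this, abs_div, abs_of_pos L0, div_le_iff₀ L0, ← e2, ← q1,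
    show 8⁻¹ / 4 / 2 ^ j * (416 * 2 ^ j * R) = 13 * R by field_simp; norm_num, abs_le]
  constructor <;> linarith

theorem main {Ω : Type*} [MeasurableSpace Ω] {P : Measure Ω} [IsProbabilityMeasure P] {ω : ℕ → Ω → ℕ}
    (m : ∀ n, Measurable (ω n)) (h : iIndepFun ω P) {p : ℝ} (p0 : 0 < p) (p1 : p < 1)
    (h2 : ∀ n, P.real {a | ω n a = 2} = p) (h3 : ∀ n, P.real {a | ω n a = 3} = 1 - p) :
    ∀ᵐ a ∂P, ¬Khin (pr (ω · a)) := by
  let f : Prop → ℝ := fun b => if b then 1 - p else -p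
  let X : ℕ → Ω → ℝ := fun n a => f (ω n a = 2)
  have m2 : ∀ n k, MeasurableSet {a | ω n a = k} := fun n k => m n (measurableSet_singleton k)
  have mX : ∀ n, Measurable (X n) := fun n => (Measurable.of_discrete (f := fun k => f (k = 2))).comp (m n)
  have hX : iIndepFun X P := h.comp (fun _ k => f (k = 2)) fun _ => .of_discrete
  have d : ∀ i, IdentDistrib (X i) (X 0) P P := fun i => by
    refine IdentDistrib.comp (f := fun a => ω i a = 2) (g := fun a => ω 0 a = 2)
      ⟨by fun_prop, by fun_prop, ?_⟩ (.of_discrete (f := f))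
    refine Measure.ext_of_singleton fun b => ?_
    have : ∀ n, P {a | ω n a = 2} = .ofReal p := fun n => by rw [← h2 n, ofReal_measureReal]
    rw [Measure.map_apply (by fun_prop) .of_discrete, Measure.map_apply (by fun_prop) .of_discrete]
    by_cases c : b
    · simp [preimage, c, this]
    simp [preimage, c, ← compl_ofPred, prob_compl_eq_one_sub (m2 _ _), this]
  have l : MemLp (X 0) 2 P := .of_bound (mX 0).aestronglyMeasurable 1 (ae_of_all _ fun a => by
    simp only [X, f, Real.norm_eq_abs, abs_le]; split_ifs <;> constructor <;> linarith)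
  have I : ∀ c d : ℝ, ∫ a, (c * {a | ω 0 a = 2}.indicator 1 a + d) ∂P = c * p + d := fun c d => by
    have : Integrable ({a | ω 0 a = 2}.indicator (1 : Ω → ℝ)) P := (integrable_const 1).indicator (m2 _ _)
    rw [integral_add (this.const_mul c) (integrable_const d),
      integral_const_mul, integral_indicator_one (m2 _ _), h2]
    simp
  have e : P[X 0] = 0 := by
    refine (integral_congr_ae (ae_of_all _ fun a => ?_)).trans ((I 1 (-p)).trans (by ring))
    by_cases c : ω 0 a = 2 <;> simp [X, f, c, sub_eq_add_neg]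
  have v : Var[X 0; P] = p * (1 - p) := by
    rw [variance_of_integral_eq_zero (mX 0).aemeasurable e]
    refine (integral_congr_ae (ae_of_all _ fun a => ?_)).trans ((I (1 - 2 * p) (p ^ 2)).trans (by ring))
    by_cases c : ω 0 a = 2 <;> simp [X, f, c]
    ring
  have a : ∀ᵐ a ∂P, ∀ i, ω i a = 2 ∨ ω i a = 3 := ae_all_iff.2 fun i => by
    refine (prob_compl_eq_zero_iff ((m2 i 2).union (m2 i 3))).2 ((ENNReal.toReal_eq_one_iff _).1 ?_)
    rw [← measureReal_def, measureReal_union (disjoint_left.2 fun a x y => by simp_all) (m2 _ _), h2, h3]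
    ring
  have k : ∀ j, ∀ᵐ a ∂P, ∃ᶠ i in atTop, _ := fun j => runs mX hX d (2 * (416 * 2 ^ j))
    (fun i k => {x | if Even k then ∑ l ∈ Finset.range (2 ^ (2 * (416 * 2 ^ j) * i + k)), x l ∈
      Ioo (3 * 2 ^ (416 * 2 ^ j * (i + 1))) (2 * (3 * 2 ^ (416 * 2 ^ j * (i + 1)))) else
      ∑ l ∈ Finset.range (2 ^ (2 * (416 * 2 ^ j) * i + k)), (∑ i ∈ Finset.range (l + 1), x i) ^ 2 +
      (2 ^ (2 * (416 * 2 ^ j) * i + k) : ℕ) * (∑ i ∈ Finset.range (2 ^ (2 * (416 * 2 ^ j) * i + k)), x i) ^ 2 <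
        4 * (2 ^ (2 * (416 * 2 ^ j) * i + k) : ℕ) ^ 2}) (fun i k => ?_) (fun i k x y e => ?_) fun k => ?_
  · filter_upwards [a, ae_all_iff.2 k] with a a1 a2
    refine not_khin fun j => ?_
    obtain ⟨i, i1, i2⟩ := ((a2 j).and_eventually (eventually_gt_atTop j)).exists
    generalize hq : 416 * 2 ^ j = q at i1
    have q0 : 0 < q := by rw [← hq]; positivity
    refine ⟨_, det a1 p0 p1 (x := (X · a)) (fun _ => by simp [X, f]) hq (T := fun k => 2 ^ (2 * q * i + k))
      (fun k => by ring) (lt_trans (by nlinarith) Nat.lt_two_pow_self) (R := 2 ^ (q * (i + 1)))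
      (one_le_pow₀ one_le_two) (fun k hk => ?_) (fun k hk => ?_) fun k hk => ?_⟩
    · rw [← pow_mul]
      exact_mod_cast Nat.pow_le_pow_right two_pos (by nlinarith)
    · simpa only [mem_ofPred_eq, if_pos (even_two_mul k)] using i1 (2 * k) (by omega)
    · simpa only [mem_ofPred_eq, if_neg (Nat.not_even_iff_odd.2 (odd_two_mul_add_one k))] using
        i1 (2 * k + 1) (by omega)
  · split_ifs
    · exact measurableSet_Ioo.preimage (by fun_prop)
    exact measurableSet_lt (by fun_prop) measurable_const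
  · have : ∀ n ≤ 2 ^ (2 * (416 * 2 ^ j) * i + k), ∑ i ∈ Finset.range n, x i = ∑ i ∈ Finset.range n, y i :=
      fun n hn => Finset.sum_congr rfl fun l hl => e l ((Finset.mem_range.1 hl).trans_le hn)
    simp only [mem_ofPred_eq, this _ le_rfl]
    rw [Finset.sum_congr rfl fun l hl => congrArg (· ^ 2) (this (l + 1) (Finset.mem_range.1 hl))]
    exact id
  generalize hq : 416 * 2 ^ j = q
  have q0 : 0 < q := by rw [← hq]; positivity
  by_cases hc : Even k
  · obtain ⟨c, c0, c1⟩ := move hX d l e (by rw [v]; nlinarith) (y := 3 * 2 ^ q / √(2 ^ k)) (by positivity)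
    refine ⟨c, c0, ((tendsto_atTop_mono (g := fun i => 2 ^ (2 * q * i + k)) (fun i => le_trans
      (show i ≤ _ by nlinarith) Nat.lt_two_pow_self.le) tendsto_id).eventually c1).mono fun i hi => ?_⟩
    have : 3 * 2 ^ q / √(2 ^ k) * √((2 ^ (2 * q * i + k) : ℕ) : ℝ) = 3 * 2 ^ (q * (i + 1)) := by
      push_cast
      rw [pow_add, Real.sqrt_mul (by positivity), mul_assoc 2, pow_mul' _ 2, Real.sqrt_sq (by positivity)]
      field_simp
      ring
    simpa only [mem_ofPred_eq, if_pos hc, this] using hi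
  exact ⟨.ofReal 2⁻¹, by simp, .of_forall fun i => by
    simpa only [mem_ofPred_eq, if_neg hc] using stay mX hX d l e (by rw [v]; nlinarith) (by positivity)⟩

end Pool.Agent.H.MP_47485c_an
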